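import Mathlib

/-!
# Vanishing of Ext: long exact sequences and dimension shifting

`EV R l K X` is the statement `Ext^l_R(K, X) = 0`, for left modules over a ring.
-/

set_option autoImplicit false

namespace Pool.Agent.UP62

open CategoryTheory

universe u

/-- `Ext^l_R(K, X) = 0`. -/
def EV (R : Type u) [Ring R] (l : ℕ) (K X : Type u) [AddCommGroup K] [Module R K]
    [AddCommGroup X] [Module R X] : Prop :=
  Subsingleton (Abelian.Ext.{u} (ModuleCat.of R K) (ModuleCat.of R X) l)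

section

variable {R : Type u} [Ring R] {K₁ K₂ K₃ X : Type u} [AddCommGroup K₁] [Module R K₁]
  [AddCommGroup K₂] [Module R K₂] [AddCommGroup K₃] [Module R K₃] [AddCommGroup X] [Module R X]

/-- The short complex of a short exact sequence. -/
def sc (f : K₁ →ₗ[R] K₂) (g : K₂ →ₗ[R] K₃) (hex : Function.Exact f g) :
    ShortComplex (ModuleCat.{u} R) :=
  ShortComplex.mk (ModuleCat.ofHom f) (ModuleCat.ofHom g) (by
    rw [← ModuleCat.ofHom_comp]
    have h : g ∘ₗ f = 0 := hex.linearMap_comp_eq_zero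
    rw [h]
    rfl)

theorem sc_exact (f : K₁ →ₗ[R] K₂) (g : K₂ →ₗ[R] K₃) (hf : Function.Injective f)
    (hex : Function.Exact f g) (hg : Function.Surjective g) : (sc f g hex).ShortExact :=
  ModuleCat.shortComplex_shortExact _ hex hf hg

/-- The middle term. -/
theorem EV.mid {l : ℕ} (f : K₁ →ₗ[R] K₂) (g : K₂ →ₗ[R] K₃) (hf : Function.Injective f)
    (hex : Function.Exact f g) (hg : Function.Surjective g) (h₁ : EV R l K₁ X)
    (h₃ : EV R l K₃ X) : EV R l K₂ X := by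
  have hS := sc_exact f g hf hex hg
  refine subsingleton_of_forall_eq 0 fun x₂ => ?_
  obtain ⟨x₃, rfl⟩ := Abelian.Ext.contravariant_sequence_exact₂ hS (ModuleCat.of R X) x₂
    (h₁.elim _ _)
  have h : x₃ = 0 := h₃.elim _ _
  rw [h, Abelian.Ext.comp_zero]
  rfl

/-- The quotient. -/
theorem EV.quot {l : ℕ} (f : K₁ →ₗ[R] K₂) (g : K₂ →ₗ[R] K₃) (hf : Function.Injective f)
    (hex : Function.Exact f g) (hg : Function.Surjective g) (h₁ : EV R l K₁ X)
    (h₂ : EV R (l + 1) K₂ X) : EV R (l + 1) K₃ X := by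
  have hS := sc_exact f g hf hex hg
  refine subsingleton_of_forall_eq 0 fun x₃ => ?_
  obtain ⟨x₁, rfl⟩ := Abelian.Ext.contravariant_sequence_exact₃ hS (ModuleCat.of R X) x₃
    (h₂.elim _ _) (add_comm 1 l)
  have h : x₁ = 0 := h₁.elim _ _
  rw [h, Abelian.Ext.comp_zero]
  rfl

/-- The submodule. -/
theorem EV.sub {l : ℕ} (f : K₁ →ₗ[R] K₂) (g : K₂ →ₗ[R] K₃) (hf : Function.Injective f)
    (hex : Function.Exact f g) (hg : Function.Surjective g) (h₂ : EV R l K₂ X)
    (h₃ : EV R (l + 1) K₃ X) : EV R l K₁ X := by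
  have hS := sc_exact f g hf hex hg
  refine subsingleton_of_forall_eq 0 fun x₁ => ?_
  obtain ⟨x₂, rfl⟩ := Abelian.Ext.contravariant_sequence_exact₁ hS (ModuleCat.of R X) x₁
    (add_comm 1 l) (h₃.elim _ _)
  have h : x₂ = 0 := h₂.elim _ _
  rw [h, Abelian.Ext.comp_zero]
  rfl

/-- Isomorphic modules. -/
theorem EV.congr {l : ℕ} (e : K₁ ≃ₗ[R] K₂) (h : EV R l K₁ X) : EV R l K₂ X := by
  refine EV.mid (K₁ := K₁) (K₃ := PUnit) e.toLinearMap 0 e.injective ?_ ?_ h ?_
  · intro x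
    exact ⟨fun _ => e.surjective x, fun _ => rfl⟩
  · intro x
    exact ⟨0, Subsingleton.elim _ _⟩
  · have hz : Limits.IsZero (ModuleCat.of R PUnit.{u + 1}) := ModuleCat.isZero_of_subsingleton _
    refine subsingleton_of_forall_eq 0 fun x => ?_
    have h1 : x = (Abelian.Ext.mk₀ (𝟙 (ModuleCat.of R PUnit.{u + 1}))).comp x (zero_add l) :=
      (Abelian.Ext.mk₀_id_comp x).symm
    rw [h1, hz.eq_of_src (𝟙 _) 0, Abelian.Ext.mk₀_zero, Abelian.Ext.zero_comp]

/-- The zero module. -/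
theorem EV.of_subsingleton [Subsingleton K₁] {l : ℕ} : EV R l K₁ X := by
  have hz : Limits.IsZero (ModuleCat.of R K₁) := ModuleCat.isZero_of_subsingleton _
  refine subsingleton_of_forall_eq 0 fun x => ?_
  have h1 : x = (Abelian.Ext.mk₀ (𝟙 (ModuleCat.of R K₁))).comp x (zero_add l) :=
    (Abelian.Ext.mk₀_id_comp x).symm
  rw [h1, hz.eq_of_src (𝟙 _) 0, Abelian.Ext.mk₀_zero, Abelian.Ext.zero_comp]

/-- Projective modules. -/
theorem EV.of_projective [Module.Projective R K₁] {l : ℕ} : EV R (l + 1) K₁ X := by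
  have : Projective (ModuleCat.of R K₁) := (IsProjective.iff_projective K₁).1 inferInstance
  exact Abelian.Ext.subsingleton_of_projective _ _ l

/-- `Ext^0 = Hom`. -/
theorem EV.zero_iff : EV R 0 K₁ X ↔ ∀ f : K₁ →ₗ[R] X, f = 0 := by
  constructor
  · intro h f
    have h1 : Abelian.Ext.mk₀ (ModuleCat.ofHom f) = Abelian.Ext.mk₀ (0 : ModuleCat.of R K₁ ⟶
      ModuleCat.of R X) := h.elim _ _
    have h2 := (Abelian.Ext.mk₀_bijective _ _).1 h1
    exact ModuleCat.hom_ext_iff.1 h2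
  · intro h
    refine subsingleton_of_forall_eq 0 fun x => ?_
    obtain ⟨f, rfl⟩ := (Abelian.Ext.mk₀_bijective _ _).2 x
    have h1 : f = 0 := ModuleCat.hom_ext (h f.hom)
    rw [h1, Abelian.Ext.mk₀_zero]

/-- Dimension shifting. -/
theorem EV.shift [Module.Projective R K₂] {l : ℕ} (f : K₁ →ₗ[R] K₂) (g : K₂ →ₗ[R] K₃)
    (hf : Function.Injective f) (hex : Function.Exact f g) (hg : Function.Surjective g) :
    EV R (l + 2) K₃ X ↔ EV R (l + 1) K₁ X :=
  ⟨fun h => EV.sub f g hf hex hg EV.of_projective h,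
    fun h => EV.quot f g hf hex hg h EV.of_projective⟩

/-- `Ext^1` through a projective cover. -/
theorem EV.one_iff [Module.Projective R K₂] (f : K₁ →ₗ[R] K₂) (g : K₂ →ₗ[R] K₃)
    (hf : Function.Injective f) (hex : Function.Exact f g) (hg : Function.Surjective g) :
    EV R 1 K₃ X ↔ ∀ φ : K₁ →ₗ[R] X, ∃ ψ : K₂ →ₗ[R] X, ψ ∘ₗ f = φ := by
  have hS := sc_exact f g hf hex hg
  constructor
  · intro h φ
    obtain ⟨x₂, hx₂⟩ := Abelian.Ext.contravariant_sequence_exact₁ hS (ModuleCat.of R X)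
      (Abelian.Ext.mk₀ (ModuleCat.ofHom φ)) (add_comm 1 0) (h.elim _ _)
    obtain ⟨ψ, rfl⟩ := (Abelian.Ext.mk₀_bijective _ _).2 x₂
    refine ⟨ψ.hom, ?_⟩
    rw [Abelian.Ext.mk₀_comp_mk₀] at hx₂
    have h2 := (Abelian.Ext.mk₀_bijective _ _).1 hx₂
    exact ModuleCat.hom_ext_iff.1 h2
  · intro h
    refine subsingleton_of_forall_eq 0 fun x₃ => ?_
    have hp : EV R 1 K₂ X := EV.of_projective
    obtain ⟨x₁, rfl⟩ := Abelian.Ext.contravariant_sequence_exact₃ hS (ModuleCat.of R X) x₃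
      (hp.elim _ _) (add_comm 1 0)
    obtain ⟨φ, rfl⟩ := (Abelian.Ext.mk₀_bijective _ _).2 x₁
    obtain ⟨ψ, hψ⟩ := h φ.hom
    let ψ' : (sc f g hex).X₂ ⟶ ModuleCat.of R X := ModuleCat.ofHom ψ
    have h1 : φ = (sc f g hex).f ≫ ψ' := by
      apply ModuleCat.hom_ext
      exact hψ.symm
    rw [h1, ← Abelian.Ext.mk₀_comp_mk₀, hS.extClass_comp_assoc]
    rfl

end

end Pool.Agent.UP62
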