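import Pool.Agent.Lib.UP62.Loc

/-!
# Row homology of a total complex
-/

set_option autoImplicit false

namespace Pool.Agent.UP62

open Pool.Agent.UP

universe u

variable {R : Type u} [Ring R]

/-- the row vectors of degree `j` of the complex of projective modules -/
def rowX (X : TC R) (j : ℤ) : Submodule R (X.K → R) where
  carrier := {x | (∀ k, x k ≠ 0 → X.deg k = j) ∧ Matrix.vecMul x X.e = x}
  add_mem' := by
    rintro a b ⟨ha, ha1⟩ ⟨hb, hb1⟩
    refine ⟨fun k hk => ?_, by rw [Matrix.add_vecMul, ha1, hb1]⟩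
    by_contra hne
    apply hk
    rw [Pi.add_apply, not_not.1 (mt (ha k) hne), not_not.1 (mt (hb k) hne), add_zero]
  zero_mem' := ⟨fun k hk => absurd rfl hk, Matrix.zero_vecMul _⟩
  smul_mem' := by
    rintro c x ⟨hx, hx1⟩
    refine ⟨fun k hk => hx k fun h0 => hk ?_, by rw [Matrix.smul_vecMul, hx1]⟩
    rw [Pi.smul_apply, h0, smul_zero]

/-- cycles -/
def cyX (X : TC R) (j : ℤ) : Submodule R (X.K → R) where
  carrier := {x | x ∈ rowX X j ∧ Matrix.vecMul x X.d = 0}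
  add_mem' := by
    rintro a b ⟨ha, ha1⟩ ⟨hb, hb1⟩
    exact ⟨add_mem ha hb, by rw [Matrix.add_vecMul, ha1, hb1, add_zero]⟩
  zero_mem' := ⟨zero_mem _, Matrix.zero_vecMul _⟩
  smul_mem' := by
    rintro c x ⟨hx, hx1⟩
    exact ⟨Submodule.smul_mem _ _ hx, by rw [Matrix.smul_vecMul, hx1, smul_zero]⟩

/-- all boundaries (of all degrees) -/
def bdX (X : TC R) : Submodule R (X.K → R) where
  carrier := {x | ∃ y, Matrix.vecMul y X.d = x}
  add_mem' := by
    rintro _ _ ⟨a, rfl⟩ ⟨b, rfl⟩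
    exact ⟨a + b, Matrix.add_vecMul _ _ _⟩
  zero_mem' := ⟨0, Matrix.zero_vecMul _⟩
  smul_mem' := by
    rintro c _ ⟨a, rfl⟩
    exact ⟨c • a, Matrix.smul_vecMul _ _ _⟩

/-- the row homology in degree `j` -/
abbrev HX (X : TC R) (j : ℤ) : Type u := (cyX X j) ⧸ (bdX X).comap (cyX X j).subtype

end Pool.Agent.UP62
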