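import Pool.Agent.Lib.UP62.Ext
import Pool.Agent.Lib.UP.Defs

/-!
# Closure properties of the conditions `GE` and `Loc`
-/

set_option autoImplicit false

namespace Pool.Agent.UP62

open CategoryTheory Pool.Agent.UP

universe u

section

variable {R : Type u} [Ring R] {K₁ K₂ K₃ : Type u} [AddCommGroup K₁] [Module R K₁]
  [AddCommGroup K₂] [Module R K₂] [AddCommGroup K₃] [Module R K₃]

theorem GE_iff (p : ℕ) : GE R p K₁ ↔ ∀ l < p, EV R l K₁ R := Iff.rfl

theorem GE.mono {p q : ℕ} (hpq : p ≤ q) (h : GE R q K₁) : GE R p K₁ :=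
  fun l hl => h l (hl.trans_le hpq)

theorem GE.congr {p : ℕ} (e : K₁ ≃ₗ[R] K₂) (h : GE R p K₁) : GE R p K₂ :=
  fun l hl => EV.congr e (h l hl)

theorem GE.of_subsingleton [Subsingleton K₁] {p : ℕ} : GE R p K₁ :=
  fun _ _ => EV.of_subsingleton

/-- Extensions. -/
theorem GE.mid {p : ℕ} (f : K₁ →ₗ[R] K₂) (g : K₂ →ₗ[R] K₃) (hf : Function.Injective f)
    (hex : Function.Exact f g) (hg : Function.Surjective g) (h₁ : GE R p K₁)
    (h₃ : GE R p K₃) : GE R p K₂ :=
  fun l hl => EV.mid f g hf hex hg (h₁ l hl) (h₃ l hl)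

/-- Quotients. -/
theorem GE.quot {p : ℕ} (f : K₁ →ₗ[R] K₂) (g : K₂ →ₗ[R] K₃) (hf : Function.Injective f)
    (hex : Function.Exact f g) (hg : Function.Surjective g) (h₁ : GE R (p - 1) K₁)
    (h₂ : GE R p K₂) : GE R p K₃ := by
  intro l hl
  cases l with
  | zero =>
    refine EV.zero_iff.2 fun φ => ?_
    have h := EV.zero_iff.1 (h₂ 0 hl) (φ ∘ₗ g)
    ext x
    obtain ⟨y, rfl⟩ := hg x
    exact LinearMap.congr_fun h y
  | succ l => exact EV.quot f g hf hex hg (h₁ l (by omega)) (h₂ (l + 1) hl)

/-- Submodules. -/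
theorem GE.sub {p : ℕ} (f : K₁ →ₗ[R] K₂) (g : K₂ →ₗ[R] K₃) (hf : Function.Injective f)
    (hex : Function.Exact f g) (hg : Function.Surjective g) (h₂ : GE R p K₂)
    (h₃ : GE R (p + 1) K₃) : GE R p K₁ :=
  fun l hl => EV.sub f g hf hex hg (h₂ l hl) (h₃ (l + 1) (by omega))

theorem Loc.mono {p q : ℕ} (hpq : p ≤ q) (h : Loc R q K₁) : Loc R p K₁ :=
  fun N hN => GE.mono hpq (h N hN)

theorem Loc.zero : Loc R 0 K₁ := fun _ _ l hl => absurd hl (Nat.not_lt_zero l)

theorem Loc.ge {p : ℕ} [Module.Finite R K₁] (h : Loc R p K₁) : GE R p K₁ :=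
  GE.congr (Submodule.topEquiv (R := R) (M := K₁)) (h ⊤ Module.Finite.fg_top)

/-- `Loc` passes to submodules. -/
theorem Loc.inj {p : ℕ} (f : K₁ →ₗ[R] K₂) (hf : Function.Injective f) (h : Loc R p K₂) :
    Loc R p K₁ := by
  intro N hN
  exact GE.congr (Submodule.equivMapOfInjective f hf N).symm (h (N.map f) (hN.map f))

theorem Loc.congr {p : ℕ} (e : K₁ ≃ₗ[R] K₂) (h : Loc R p K₁) : Loc R p K₂ :=
  Loc.inj e.symm.toLinearMap e.symm.injective h

/-- A finitely generated submodule of the image is the image of a finitely generated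
submodule. -/
theorem exists_lift_fg (g : K₂ →ₗ[R] K₃) (hg : Function.Surjective g) (N : Submodule R K₃)
    (hN : N.FG) : ∃ N' : Submodule R K₂, N'.FG ∧ N'.map g = N := by
  classical
  obtain ⟨s, rfl⟩ := hN
  refine ⟨Submodule.span R ((s.image (Function.surjInv hg) : Finset K₂) : Set K₂), ⟨_, rfl⟩, ?_⟩
  rw [Submodule.map_span]
  congr 1
  rw [Finset.coe_image, ← Set.image_comp]
  have h : (g : K₂ → K₃) ∘ Function.surjInv hg = id := funext fun x => Function.surjInv_eq hg x
  rw [h, Set.image_id]

variable [IsNoetherianRing R]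

/-- `Loc` passes to quotients. -/
theorem Loc.surj {p : ℕ} (g : K₂ →ₗ[R] K₃) (hg : Function.Surjective g) (h : Loc R p K₂) :
    Loc R p K₃ := by
  intro N hN
  obtain ⟨N', hN', rfl⟩ := exists_lift_fg g hg N hN
  have hfin : Module.Finite R N' := Module.Finite.iff_fg.2 hN'
  let g' : N' →ₗ[R] N'.map g := (g ∘ₗ N'.subtype).codRestrict _ fun x => ⟨x, x.2, rfl⟩
  have hg' : Function.Surjective g' := by
    rintro ⟨_, x, hx, rfl⟩
    exact ⟨⟨x, hx⟩, rfl⟩
  have hker : (LinearMap.ker g').FG := IsNoetherian.noetherian _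
  refine GE.quot (LinearMap.ker g').subtype g' (Submodule.subtype_injective _)
    (LinearMap.exact_subtype_ker_map g') hg' ?_ (h N' hN')
  have h1 : GE R p (LinearMap.ker g') := Loc.ge (Loc.inj (N'.subtype ∘ₗ (LinearMap.ker g').subtype)
    ((Submodule.subtype_injective _).comp (Submodule.subtype_injective _)) h)
  exact GE.mono (Nat.sub_le _ _) h1

/-- `Loc` passes to extensions. -/
theorem Loc.ext {p : ℕ} (f : K₁ →ₗ[R] K₂) (g : K₂ →ₗ[R] K₃) (hf : Function.Injective f)
    (hex : Function.Exact f g) (h₁ : Loc R p K₁) (h₃ : Loc R p K₃) : Loc R p K₂ := by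
  intro N hN
  have hfin : Module.Finite R N := Module.Finite.iff_fg.2 hN
  let g' : N →ₗ[R] N.map g := (g ∘ₗ N.subtype).codRestrict _ fun x => ⟨x, x.2, rfl⟩
  have hg' : Function.Surjective g' := by
    rintro ⟨_, x, hx, rfl⟩
    exact ⟨⟨x, hx⟩, rfl⟩
  have hkerfg : (LinearMap.ker g').FG := IsNoetherian.noetherian _
  have hkfin : Module.Finite R (LinearMap.ker g') := Module.Finite.iff_fg.2 hkerfg
  refine GE.mid (LinearMap.ker g').subtype g' (Submodule.subtype_injective _)
    (LinearMap.exact_subtype_ker_map g') hg' ?_ (h₃ _ (hN.map g))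
  -- the kernel embeds in `K₁`
  have hk : ∀ x : LinearMap.ker g', ∃ y : K₁, f y = ((x : N) : K₂) := by
    rintro ⟨x, hx⟩
    refine (hex (x : K₂)).1 ?_
    have h1 := congrArg Subtype.val (LinearMap.mem_ker.1 hx)
    exact h1
  let ψ : LinearMap.ker g' →ₗ[R] K₁ :=
    (LinearEquiv.ofInjective f hf).symm.toLinearMap ∘ₗ
      ((N.subtype ∘ₗ (LinearMap.ker g').subtype).codRestrict (LinearMap.range f) fun x => hk x)
  have hψ : Function.Injective ψ := by
    refine (LinearEquiv.ofInjective f hf).symm.injective.comp ?_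
    intro a b hab
    have h2 : (((a : N)) : K₂) = ((b : N) : K₂) :=
      congrArg (fun z : LinearMap.range f => (z : K₂)) hab
    exact Subtype.ext (Subtype.ext h2)
  exact Loc.ge (Loc.inj ψ hψ h₁)

end

/-! ## Twists -/

section twist

variable {R : Type u} [Ring R] (σ : R ≃+* R)

theorem EV.twist : ∀ (l : ℕ) (M M' X X' : Type u) [AddCommGroup M] [Module R M] [AddCommGroup M']
    [Module R M'] [AddCommGroup X] [Module R X] [AddCommGroup X'] [Module R X']
    (f : M ≃+ M') (_ : ∀ (r : R) (x : M), f (r • x) = σ r • f x)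
    (h : X ≃+ X') (_ : ∀ (r : R) (x : X), h (r • x) = σ r • h x),
    EV R l M X → EV R l M' X' := by
  classical
  -- transport of linear maps
  have tr : ∀ (M M' X X' : Type u) [AddCommGroup M] [Module R M] [AddCommGroup M']
      [Module R M'] [AddCommGroup X] [Module R X] [AddCommGroup X'] [Module R X']
      (f : M ≃+ M') (_ : ∀ (r : R) (x : M), f (r • x) = σ r • f x)
      (h : X ≃+ X') (_ : ∀ (r : R) (x : X), h (r • x) = σ r • h x) (φ : M' →ₗ[R] X'),
      ∃ ψ : M →ₗ[R] X, ∀ x, h (ψ x) = φ (f x) := by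
    intro M M' X X' _ _ _ _ _ _ _ _ f hf h hh φ
    refine ⟨{ toFun := fun x => h.symm (φ (f x))
              map_add' := fun x y => by rw [map_add, map_add, map_add]
              map_smul' := fun r x => ?_ }, fun x => ?_⟩
    · apply h.injective
      rw [RingHom.id_apply, h.apply_symm_apply, hh, h.apply_symm_apply, hf, map_smul]
    · exact h.apply_symm_apply _
  have tr' : ∀ (M M' X X' : Type u) [AddCommGroup M] [Module R M] [AddCommGroup M']
      [Module R M'] [AddCommGroup X] [Module R X] [AddCommGroup X'] [Module R X']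
      (f : M ≃+ M') (_ : ∀ (r : R) (x : M), f (r • x) = σ r • f x)
      (h : X ≃+ X') (_ : ∀ (r : R) (x : X), h (r • x) = σ r • h x) (ψ : M →ₗ[R] X),
      ∃ φ : M' →ₗ[R] X', ∀ x, h (ψ x) = φ (f x) := by
    intro M M' X X' _ _ _ _ _ _ _ _ f hf h hh ψ
    refine ⟨{ toFun := fun x => h (ψ (f.symm x))
              map_add' := fun x y => by rw [map_add, map_add, map_add]
              map_smul' := fun r x => ?_ }, fun x => ?_⟩
    · have h2 : f.symm (r • x) = σ.symm r • f.symm x := by
        apply f.injective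
        rw [f.apply_symm_apply, hf, f.apply_symm_apply, RingEquiv.apply_symm_apply]
      rw [RingHom.id_apply, h2, map_smul, hh, RingEquiv.apply_symm_apply]
    · change _ = h (ψ (f.symm (f x)))
      rw [f.symm_apply_apply]
  intro l
  induction l with
  | zero =>
    intro M M' X X' _ _ _ _ _ _ _ _ f hf h hh hM
    rw [EV.zero_iff] at hM ⊢
    intro φ
    obtain ⟨ψ, hψ⟩ := tr M M' X X' f hf h hh φ
    ext x
    obtain ⟨y, rfl⟩ := f.surjective x
    rw [← hψ, hM ψ, LinearMap.zero_apply, LinearMap.zero_apply, map_zero]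
  | succ l ih =>
    intro M M' X X' _ _ _ _ _ _ _ _ f hf h hh hM
    -- presentations
    let g' : (M' →₀ R) →ₗ[R] M' := Finsupp.linearCombination R id
    have hg' : Function.Surjective g' := fun x => ⟨Finsupp.single x 1, by simp [g']⟩
    let T : (M' →₀ R) ≃+ (M' →₀ R) := Finsupp.mapRange.addEquiv σ.toAddEquiv
    have hT : ∀ (r : R) (v : M' →₀ R), T (r • v) = σ r • T v := by
      intro r v
      ext x
      exact map_mul σ r (v x)
    let g : (M' →₀ R) →ₗ[R] M :=
      { toFun := fun v => f.symm (g' (T v))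
        map_add' := fun v w => by rw [map_add, map_add, map_add]
        map_smul' := fun r v => by
          apply f.injective
          rw [RingHom.id_apply, f.apply_symm_apply, hf, f.apply_symm_apply, hT, map_smul] }
    have hfg : ∀ v, f (g v) = g' (T v) := fun v => f.apply_symm_apply _
    have hg : Function.Surjective g := by
      intro x
      obtain ⟨w, hw⟩ := hg' (f x)
      obtain ⟨v, rfl⟩ := T.surjective w
      exact ⟨v, f.injective (by rw [hfg, hw])⟩
    let K := LinearMap.ker g
    let K' := LinearMap.ker g'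
    have hKT : ∀ v, v ∈ K ↔ T v ∈ K' := by
      intro v
      rw [LinearMap.mem_ker, LinearMap.mem_ker, ← hfg, map_eq_zero_iff f f.injective]
    let fK : K ≃+ K' :=
      { toFun := fun v => ⟨T v, (hKT v).1 v.2⟩
        invFun := fun w => ⟨T.symm w, (hKT _).2 (by rw [T.apply_symm_apply]; exact w.2)⟩
        left_inv := fun v => Subtype.ext (T.symm_apply_apply _)
        right_inv := fun w => Subtype.ext (T.apply_symm_apply _)
        map_add' := fun v w => Subtype.ext (map_add T _ _) }
    have hfK : ∀ (r : R) (v : K), fK (r • v) = σ r • fK v := fun r v => Subtype.ext (hT r v)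
    cases l with
    | zero =>
      have hM := (EV.one_iff (K₁ := LinearMap.ker g) (K₂ := M' →₀ R) (K₃ := M) (X := X)
        (LinearMap.ker g).subtype g (Submodule.subtype_injective _)
        (LinearMap.exact_subtype_ker_map g) hg).1 hM
      refine (EV.one_iff (K₁ := LinearMap.ker g') (K₂ := M' →₀ R) (K₃ := M') (X := X')
        (LinearMap.ker g').subtype g' (Submodule.subtype_injective _)
        (LinearMap.exact_subtype_ker_map g') hg').2 ?_
      intro φ
      obtain ⟨ψ, hψ⟩ := tr K K' X X' fK hfK h hh φ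
      obtain ⟨Ψ, hΨ⟩ := hM ψ
      obtain ⟨Φ, hΦ⟩ := tr' (M' →₀ R) (M' →₀ R) X X' T hT h hh Ψ
      refine ⟨Φ, ?_⟩
      ext w
      obtain ⟨v, rfl⟩ := fK.surjective w
      rw [← hψ v, ← hΨ]
      exact (hΦ (v : M' →₀ R)).symm
    | succ l =>
      have h1 := (EV.shift (K₁ := LinearMap.ker g) (K₂ := M' →₀ R) (K₃ := M) (X := X)
        (LinearMap.ker g).subtype g (Submodule.subtype_injective _)
        (LinearMap.exact_subtype_ker_map g) hg).1 hM
      exact (EV.shift (K₁ := LinearMap.ker g') (K₂ := M' →₀ R) (K₃ := M') (X := X')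
        (LinearMap.ker g').subtype g' (Submodule.subtype_injective _)
        (LinearMap.exact_subtype_ker_map g') hg').2 (ih K K' X X' fK hfK h hh h1)

variable {M M' : Type u} [AddCommGroup M] [Module R M] [AddCommGroup M'] [Module R M']

theorem GE.twist {p : ℕ} (f : M ≃+ M') (hf : ∀ (r : R) (x : M), f (r • x) = σ r • f x)
    (h : GE R p M) : GE R p M' :=
  fun l hl => EV.twist σ l M M' R R f hf σ.toAddEquiv (fun r x => map_mul σ r x) (h l hl)

/-- The image of a submodule under a semilinear bijection. -/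
def mapTw (f : M ≃+ M') (hf : ∀ (r : R) (x : M), f (r • x) = σ r • f x) (N : Submodule R M') :
    Submodule R M where
  carrier := {x | f x ∈ N}
  add_mem' := fun {a b} ha hb => by
    change f (a + b) ∈ N
    rw [map_add]
    exact N.add_mem ha hb
  zero_mem' := by
    change f 0 ∈ N
    rw [map_zero]
    exact N.zero_mem
  smul_mem' := fun r x hx => by
    change f (r • x) ∈ N
    rw [hf]
    exact N.smul_mem _ hx

theorem mapTw_fg (f : M ≃+ M') (hf : ∀ (r : R) (x : M), f (r • x) = σ r • f x)
    (N : Submodule R M') (hN : N.FG) : (mapTw σ f hf N).FG := by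
  classical
  obtain ⟨s, rfl⟩ := hN
  refine ⟨s.image f.symm, le_antisymm ?_ ?_⟩
  · rw [Submodule.span_le]
    intro x hx
    obtain ⟨y, hy, rfl⟩ := Finset.mem_image.1 (Finset.mem_coe.1 hx)
    change f (f.symm y) ∈ Submodule.span R (s : Set M')
    rw [f.apply_symm_apply]
    exact Submodule.subset_span hy
  · intro x hx
    have hx' : f x ∈ Submodule.span R (s : Set M') := hx
    have key : ∀ y ∈ Submodule.span R (s : Set M'),
        f.symm y ∈ Submodule.span R ((s.image f.symm : Finset M) : Set M) := by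
      intro y hy
      induction hy using Submodule.span_induction with
      | mem y hy => exact Submodule.subset_span (Finset.mem_coe.2 (Finset.mem_image_of_mem _ hy))
      | zero => rw [map_zero]; exact Submodule.zero_mem _
      | add y z _ _ h1 h2 => rw [map_add]; exact Submodule.add_mem _ h1 h2
      | smul r y _ h1 =>
        have h2 : f.symm (r • y) = σ.symm r • f.symm y := by
          apply f.injective
          rw [f.apply_symm_apply, hf, f.apply_symm_apply, RingEquiv.apply_symm_apply]
        rw [h2]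
        exact Submodule.smul_mem _ _ h1
    have h3 := key _ hx'
    rwa [f.symm_apply_apply] at h3

/-- `Loc` is invariant under semilinear bijections. -/
theorem Loc.twist {p : ℕ} (f : M ≃+ M') (hf : ∀ (r : R) (x : M), f (r • x) = σ r • f x)
    (h : Loc R p M) : Loc R p M' := by
  intro N hN
  have h1 := h (mapTw σ f hf N) (mapTw_fg σ f hf N hN)
  let F : mapTw σ f hf N ≃+ N :=
    { toFun := fun x => ⟨f x, x.2⟩
      invFun := fun y => ⟨f.symm y, by
        change f (f.symm y) ∈ N
        rw [f.apply_symm_apply]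
        exact y.2⟩
      left_inv := fun x => Subtype.ext (f.symm_apply_apply _)
      right_inv := fun y => Subtype.ext (f.apply_symm_apply _)
      map_add' := fun x y => Subtype.ext (map_add f _ _) }
  exact GE.twist σ F (fun r x => Subtype.ext (hf r x)) h1

end twist

end Pool.Agent.UP62
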